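import Pool.Agent.H84Spl.Main

/-!
# MP_426dd2_an: a lower bound for the degree that guarantees local spline bases in `R^s`

For every dimension `s ≥ 2` and every odd smoothness `r`: whatever `m` is, there is a
triangulation of a cubical shell in `R^s` on which the `C^r` splines of degree
`(s+1) r + s - 1` that are supported in the `m`-star of some vertex do not even span the spline
space.  Hence `k_0(s,r) ≥ (s+1) r + s`.
-/

namespace Pool.Agent.Results.MP_426dd2_an.KuhnLowerBound

open Pool.Agent.H84Spl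

theorem result (s r : ℕ) (hs : 2 ≤ s) (hr : Odd r) :
    (∀ m : ℕ, ∃ T : Triang s,
      (∃ M N : ℕ, 0 < M ∧ M < N ∧
        T.region = {x : Fin s → ℝ | (∀ i, |x i| ≤ (N : ℝ)) ∧ ∃ i, (M : ℝ) ≤ |x i|}) ∧
      Submodule.span ℝ {f | f ∈ T.splineSpace r ((s + 1) * r + s - 1) ∧
        T.LocallySupported m f} ≠ T.splineSpace r ((s + 1) * r + s - 1)) ∧
    ∀ K : ℕ, (∀ k, K ≤ k → HasLocalBases s r k) → (s + 1) * r + s ≤ K := by
  have h := main s r hs hr
  have e1 : (s + 1) * (r + 1) - 2 = (s + 1) * r + s - 1 := by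
    have : (s + 1) * (r + 1) = (s + 1) * r + s + 1 := by ring
    omega
  have e2 : (s + 1) * (r + 1) - 1 = (s + 1) * r + s := by
    have : (s + 1) * (r + 1) = (s + 1) * r + s + 1 := by ring
    omega
  rw [e1, e2] at h
  exact ⟨h.1, h.2.2⟩

end Pool.Agent.Results.MP_426dd2_an.KuhnLowerBound
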