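import Pool.Agent.ELB.FinalE

/-!
# MP_426dd2_an: a lower bound within a factor two of the upper bound

For every dimension `s ≥ 3`, every smoothness `r ≥ 1` and every `ρ` with
`r ≤ ρ ≤ ⌊(3r+1)/2⌋`: whatever `m` is, there is a triangulation in `R^s` on which the `C^r`
splines of degree `2^(s-2) ρ` that are supported in the `m`-star of some vertex do not even span
the spline space.  Hence `k_0(s,r) ≥ 2^(s-2) ⌊(3r+1)/2⌋ + 1`.
-/

namespace Pool.Agent.Results.MP_426dd2_an.StackedLowerBound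

open Pool.Agent.H84Spl

theorem result (s r : ℕ) (hs : 3 ≤ s) (hr : 1 ≤ r) :
    (∀ ρ : ℕ, r ≤ ρ → ρ ≤ (3 * r + 1) / 2 → ∀ m : ℕ, ∃ T : Triang s,
      Submodule.span ℝ {f | f ∈ T.splineSpace r (2 ^ (s - 2) * ρ) ∧
        T.LocallySupported m f} ≠ T.splineSpace r (2 ^ (s - 2) * ρ)) ∧
    ∀ K : ℕ, (∀ k, K ≤ k → HasLocalBases s r k) → 2 ^ (s - 2) * ((3 * r + 1) / 2) + 1 ≤ K :=
  Pool.Agent.ELB.mainE s r hs hr

end Pool.Agent.Results.MP_426dd2_an.StackedLowerBound
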