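import Pool.Agent.USP.Final

/-!
# MP_426dd2_an: an upper bound for the degree that guarantees local spline bases in `R^s`

For every dimension `s ≥ 3`, every smoothness `r` and every degree
`k ≥ 2^(s-2) (3r+1) + 1` all spline spaces `S_k^r(Δ)`, `Δ` any triangulation in `R^s`, have local
bases: `k_0(s,r) ≤ 2^(s-2) (3r+1) + 1` (the known bound is `2^s r + 1`).
-/

namespace Pool.Agent.Results.MP_426dd2_an.UpperBound

open Pool.Agent.H84Spl

theorem result (s r k : ℕ) (hs : 3 ≤ s) (hk : 2 ^ (s - 2) * (3 * r + 1) + 1 ≤ k) :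
    HasLocalBases s r k :=
  Pool.Agent.USP.upper s r k hs hk

end Pool.Agent.Results.MP_426dd2_an.UpperBound
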